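import Mathlib
import Pool.Agent.X146.RP.P
set_option autoImplicit false

/-!
# The restriction conjecture for the paraboloid: block radial functions

Let `n = d - 1 ≥ 2` and group the coordinates of `ℝ^n` into `r` blocks of sizes `k_1, …, k_r`,
`k_1 + ⋯ + k_r = n`, with a centre `c_j ∈ ℝ^{k_j}` for every block. The variable `ρ_j` of the block
`j` is the coordinate itself if `k_j = 1` and the distance of `ξ_{B_j}` to `c_j` if `k_j ≥ 2`. We
prove the extension estimate in the full conjectured range `q > 2d/(d-1)` for the functions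

`f(ξ) = M(F_1(ξ_{B_1}), …, F_r(ξ_{B_r})) ∏_p g_p(ρ_{i_p}, ρ_{j_p})`,

where `M` is a multilinear form of norm at most one on a Hilbert space, `F_j` takes values in its
unit ball and vanishes outside the cube, `F_j` is an arbitrary measurable function of the coordinate
if `k_j = 1` and a measurable function, radial about `c_j`, if `k_j ≥ 2`, and `g_p(u, v)` is bounded
by one, arbitrary (measurable) in `u` and of bounded `2`-variation in `v`.
-/

namespace Pool.Agent.Results.MP_b7167f_an.BlockRadialTensors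

open MeasureTheory Set Complex
open scoped ENNReal NNReal

/-- The extension operator of the truncated paraboloid in `ℝ^(n+1)`:
`Ef(x,t) = ∫_{[-1,1]^n} f(ξ) exp(2πi(ξ·x + |ξ|² t)) dξ`. -/
noncomputable def ext {n : ℕ} (f : (Fin n → ℝ) → ℂ) (y : (Fin n → ℝ) × ℝ) : ℂ :=
  ∫ ξ in Icc (-1 : Fin n → ℝ) 1,
    f ξ * cexp (2 * Real.pi * I * ((∑ j, ξ j * y.1 j + (∑ j, ξ j ^ 2) * y.2 : ℝ) : ℂ))

/-- For non overlapping intervals `[a_k, b_k]` in `[-1,1]`, `k < N`, one has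
`∑ |h(b_k) - h(a_k)|² ≤ 1`: the `2`-variation of `h` on `[-1,1]` is at most one. -/
def TwoVariation (h : ℝ → ℂ) : Prop :=
  ∀ (N : ℕ) (a b : ℕ → ℝ), (∀ k < N, -1 ≤ a k ∧ a k ≤ b k ∧ b k ≤ 1) →
    (∀ k, k + 1 < N → b k ≤ a (k + 1)) → ∑ k ∈ Finset.range N, ‖h (b k) - h (a k)‖ ^ 2 ≤ 1

/-- The variable of a block of size `k` with centre `c`: the coordinate if `k = 1`, the Euclidean
distance to `c` otherwise. -/
noncomputable def blockVar {k : ℕ} (c η : Fin k → ℝ) : ℝ :=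
  if h : k = 1 then η ⟨0, by omega⟩ else Real.sqrt (∑ i, (η i - c i) ^ 2)

/-- The factors: measurable, with values in the unit ball, vanishing outside the cube `[-1,1]^k`
and, if there are at least two coordinates, radial about `c`. -/
structure Factor {H : Type} [NormedAddCommGroup H] {k : ℕ} (c : Fin k → ℝ)
    (F : (Fin k → ℝ) → H) : Prop where
  meas : StronglyMeasurable F
  bd : ∀ η, ‖F η‖ ≤ 1
  supp : ∀ η, η ∉ Icc (-1 : Fin k → ℝ) 1 → F η = 0
  radial : 2 ≤ k → ∀ η η' : Fin k → ℝ,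
    ∑ i, (η i - c i) ^ 2 = ∑ i, (η' i - c i) ^ 2 → F η = F η'

theorem result (n : ℕ) (hn : 2 ≤ n) (q : ℝ) (hq : 2 * ((n : ℝ) + 1) / n < q) (N : ℕ) :
    ∃ C : ℝ≥0, ∀ (r : ℕ) (k : Fin r → ℕ) (e : (Σ j, Fin (k j)) ≃ Fin n)
      (c : ∀ j, Fin (k j) → ℝ), (∀ j, 0 < k j) →
      ∀ (H : Type) [NormedAddCommGroup H] [InnerProductSpace ℂ H] [CompleteSpace H]
      (M : ContinuousMultilinearMap ℂ (fun _ : Fin r => H) ℂ) (F : ∀ j, (Fin (k j) → ℝ) → H)
      (i j : Fin N → Fin r) (g : Fin N → ℝ × ℝ → ℂ),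
      (∀ x, ‖M x‖ ≤ ∏ m, ‖x m‖) → (∀ m, Factor (c m) (F m)) →
      (∀ p, i p ≠ j p) → (∀ p, Measurable (g p)) →
      (∀ p, ∀ u ∈ Icc (-1 : ℝ) 1, ∀ v ∈ Icc (-1 : ℝ) 1, ‖g p (u, v)‖ ≤ 1) →
      (∀ p, ∀ u ∈ Icc (-1 : ℝ) 1, TwoVariation fun v => g p (u, v)) →
      ∫⁻ y : (Fin n → ℝ) × ℝ,
        ‖ext (fun ξ => M (fun m => F m fun l => ξ (e ⟨m, l⟩)) *
          ∏ p, g p (blockVar (c (i p)) (fun l => ξ (e ⟨i p, l⟩)),
            blockVar (c (j p)) fun l => ξ (e ⟨j p, l⟩))) y‖ₑ ^ q ≤ C := by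
  obtain ⟨C, hC⟩ := Pool.Agent.X146.RP.mainS n hn q hq N
  refine ⟨C, ?_⟩
  intro r k e c hk H _ _ _ M F i j g hM hF hij hgm hgb hgv
  set g' : Fin N → ℝ × ℝ → ℂ := fun p =>
    (Icc (-1 : ℝ) 1 ×ˢ Icc (-1 : ℝ) 1).indicator (g p) with hg'
  have hM1 : ‖M‖ ≤ 1 := by
    apply ContinuousMultilinearMap.opNorm_le_bound zero_le_one
    intro x
    rw [one_mul]
    exact hM x
  have hF' : ∀ m, Pool.Agent.X146.RP.BlkC (c m) (F m) := fun m =>
    ⟨(hF m).meas, (hF m).bd, (hF m).supp, (hF m).radial⟩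
  have hs : Pool.Agent.X146.RP.SB e c (Pool.Agent.X146.RP.ten e M F) :=
    ⟨H, inferInstance, inferInstance, inferInstance, M, F, hM1, hF', fun _ => rfl⟩
  have h1 := hC r k e c hk i j g' hij
    (fun p => (hgm p).indicator (measurableSet_Icc.prod measurableSet_Icc))
    (by
      intro p x
      by_cases h : x ∈ Icc (-1 : ℝ) 1 ×ˢ Icc (-1 : ℝ) 1
      · simp only [hg', indicator_of_mem h]
        exact hgb p x.1 h.1 x.2 h.2
      · simp only [hg', indicator_of_notMem h, norm_zero]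
        exact zero_le_one)
    (by
      intro p u N' b c' hbc hcb
      by_cases hu : u ∈ Icc (-1 : ℝ) 1
      · refine le_trans (le_of_eq ?_) (hgv p u hu N' b c' hbc hcb)
        apply Finset.sum_congr rfl
        intro k' hk'
        have hk2 := hbc k' (Finset.mem_range.1 hk')
        have m1 : (u, c' k') ∈ Icc (-1 : ℝ) 1 ×ˢ Icc (-1 : ℝ) 1 :=
          ⟨hu, hk2.1.trans hk2.2.1, hk2.2.2⟩
        have m2 : (u, b k') ∈ Icc (-1 : ℝ) 1 ×ˢ Icc (-1 : ℝ) 1 :=
          ⟨hu, hk2.1, hk2.2.1.trans hk2.2.2⟩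
        simp only [hg', indicator_of_mem m1, indicator_of_mem m2]
      · have m1 : ∀ v, g' p (u, v) = 0 := fun v => indicator_of_notMem (fun h => hu h.1) _
        simp only [m1, sub_self, norm_zero]
        simp) _ hs
  refine le_trans (le_of_eq ?_) h1
  apply lintegral_congr
  intro y
  congr 2
  unfold ext Pool.Agent.TH277.HT.EE
  apply setIntegral_congr_fun measurableSet_Icc
  intro ξ _
  simp only
  rw [mul_comm]
  unfold Pool.Agent.TH277.HT.ch
  congr 1
  have e1 : ∀ m, Pool.Agent.X146.RP.rr e c m ξ = blockVar (c m) fun l => ξ (e ⟨m, l⟩) :=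
    fun m => rfl
  have e2 : M (fun m => F m fun l => ξ (e ⟨m, l⟩)) = Pool.Agent.X146.RP.ten e M F ξ := rfl
  rw [e2]
  by_cases h0 : Pool.Agent.X146.RP.ten e M F ξ = 0
  · rw [h0, zero_mul, zero_mul]
  · congr 1
    apply Finset.prod_congr rfl
    intro p _
    have h2 : ∀ m, Pool.Agent.X146.RP.rr e c m ξ ∈ Icc (-1 : ℝ) 1 := by
      intro m
      by_contra h3
      exact h0 (Pool.Agent.X146.RP.SB_supp e c hk m _ hs ξ h3)
    rw [← e1, ← e1]
    simp only [hg']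
    rw [indicator_of_mem (mk_mem_prod (h2 (i p)) (h2 (j p)))]

end Pool.Agent.Results.MP_b7167f_an.BlockRadialTensors
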