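import Mathlib
import Pool.Agent.X146.RP.C
set_option autoImplicit false

/-!
# The endpoint of the restriction conjecture for the paraboloid: Hilbert tensors

Let `n ≥ 2`, `d = n + 1` and let `q = 2d/(d-1) = 2(n+1)/n` be the endpoint of the restriction
conjecture, for which `E 1` is not in `L^q(ℝ^d)`. For all functions
`f(ξ) = M(a_1(ξ_1), …, a_n(ξ_n))`, where `M` is a multilinear form of norm at most one on a Hilbert
space and the `a_j` are arbitrary measurable functions of one coordinate with values in its unit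
ball (for instance `f(ξ) = a_1(ξ_1) ⋯ a_n(ξ_n)` with `|a_j| ≤ 1`), we prove the endpoint estimate

`∫_{|t| ≤ R} ∫_{ℝ^n} |E f(x,t)|^q dx dt ≤ 10 · 2^(n-1) log R`,  `R ≥ 16`,

and we show that the order `log R` is exact: already for `f = 1` the integral over the cube
`[-R,R]^d` is at least `(log R)/16`.
-/

namespace Pool.Agent.Results.MP_b7167f_an.EndpointTensors

open MeasureTheory Set Complex
open scoped ENNReal NNReal

/-- The extension operator of the truncated paraboloid in `ℝ^(n+1)`: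
`Ef(x,t) = ∫_{[-1,1]^n} f(ξ) exp(2πi(ξ·x + |ξ|² t)) dξ`. -/
noncomputable def ext {n : ℕ} (f : (Fin n → ℝ) → ℂ) (y : (Fin n → ℝ) × ℝ) : ℂ :=
  ∫ ξ in Icc (-1 : Fin n → ℝ) 1,
    f ξ * cexp (2 * Real.pi * I * ((∑ j, ξ j * y.1 j + (∑ j, ξ j ^ 2) * y.2 : ℝ) : ℂ))

lemma ext_eq {n : ℕ} (f : (Fin n → ℝ) → ℂ) (y : (Fin n → ℝ) × ℝ) :
    ext f y = Pool.Agent.TH277.HT.EE f y := by
  unfold ext Pool.Agent.TH277.HT.EE
  apply setIntegral_congr_fun measurableSet_Icc
  intro ξ _
  exact mul_comm _ _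

theorem result (n : ℕ) (hn : 2 ≤ n) (R : ℝ) (hR : 16 ≤ R) :
    (∀ (H : Type) [NormedAddCommGroup H] [InnerProductSpace ℂ H] [CompleteSpace H]
      (M : ContinuousMultilinearMap ℂ (fun _ : Fin n => H) ℂ) (a : Fin n → ℝ → H),
      (∀ x, ‖M x‖ ≤ ∏ m, ‖x m‖) → (∀ m, StronglyMeasurable (a m)) →
      (∀ m, ∀ u ∈ Icc (-1 : ℝ) 1, ‖a m u‖ ≤ 1) →
      ∫⁻ y in {y : (Fin n → ℝ) × ℝ | |y.2| ≤ R},
        ‖ext (fun ξ => M (fun m => a m (ξ m))) y‖ₑ ^ (2 * ((n : ℝ) + 1) / n) ≤
          ENNReal.ofReal (10 * 2 ^ (n - 1) * Real.log R)) ∧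
    ENNReal.ofReal (Real.log R / 16) ≤
      ∫⁻ y in {y : (Fin n → ℝ) × ℝ | (∀ j, |y.1 j| ≤ R) ∧ |y.2| ≤ R},
        ‖ext (fun _ => 1) y‖ₑ ^ (2 * ((n : ℝ) + 1) / n) := by
  have hR0 : 0 < R := by linarith
  have hlog16 : 2.7 ≤ Real.log 16 := by
    have h1 : Real.log 16 = 4 * Real.log 2 := by
      rw [show (16 : ℝ) = 2 ^ 4 by norm_num, Real.log_pow]
      norm_num
    rw [h1]
    have := Real.log_two_gt_d9
    linarith
  have hlogR : 2.7 ≤ Real.log R := hlog16.trans (Real.log_le_log (by norm_num) hR)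
  constructor
  · intro H _ _ _ M a hM ham hab
    set a' : Fin n → ℝ → H := fun m => (Icc (-1 : ℝ) 1).indicator (a m) with ha'
    have hM1 : ‖M‖ ≤ 1 := by
      apply ContinuousMultilinearMap.opNorm_le_bound zero_le_one
      intro x
      rw [one_mul]
      exact hM x
    have hA : ∀ m, Pool.Agent.TH277.HT.Adm (a' m) := by
      intro m
      constructor
      · exact (ham m).indicator measurableSet_Icc
      · intro u
        by_cases h : u ∈ Icc (-1 : ℝ) 1
        · simp only [ha', indicator_of_mem h]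
          exact hab m u h
        · simp only [ha', indicator_of_notMem h, norm_zero]
          exact zero_le_one
    have h1 := Pool.Agent.X146.RP.upper n (by omega) R (by linarith)
      (fun ξ => M (fun m => a' m (ξ m))) ⟨H, ‹_›, ‹_›, ‹_›, M, a', hM1, hA, fun _ => rfl⟩
    have h2 : ∀ y, ext (fun ξ => M (fun m => a m (ξ m))) y =
        Pool.Agent.TH277.HT.EE (fun ξ => M (fun m => a' m (ξ m))) y := by
      intro y
      rw [← ext_eq]
      unfold ext
      apply setIntegral_congr_fun measurableSet_Icc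
      intro ξ hξ
      have e1 : (fun m => a' m (ξ m)) = fun m => a m (ξ m) := by
        ext m
        simp only [ha']
        rw [indicator_of_mem (show ξ m ∈ Icc (-1 : ℝ) 1 from ⟨hξ.1 m, hξ.2 m⟩)]
      simp only [e1]
    simp only [h2]
    refine h1.trans ?_
    have h3 : (2 : ℝ≥0∞) ^ (n - 1) = ENNReal.ofReal (2 ^ (n - 1)) := by
      rw [ENNReal.ofReal_pow (by norm_num), ENNReal.ofReal_ofNat]
    rw [h3, ← ENNReal.ofReal_mul (by positivity)]
    apply ENNReal.ofReal_le_ofReal
    have h4 : Real.log (2 * R) ≤ 0.7 + Real.log R := by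
      rw [Real.log_mul (by norm_num) hR0.ne']
      have := Real.log_two_lt_d9
      linarith
    have h5 : 16 + 2 * Real.log (2 * R) ≤ 10 * Real.log R := by linarith
    calc (2 : ℝ) ^ (n - 1) * (16 + 2 * Real.log (2 * R)) ≤ 2 ^ (n - 1) * (10 * Real.log R) := by
          gcongr
      _ = 10 * 2 ^ (n - 1) * Real.log R := by ring
  · have h1 := Pool.Agent.X146.RP.lower n (by omega) R (by linarith)
    simp only [ext_eq]
    refine le_trans ?_ h1
    apply ENNReal.ofReal_le_ofReal
    rw [Real.log_div hR0.ne' (by norm_num)]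
    have h2 : Real.log 16 = 2 * Real.log 4 := by
      rw [show (16 : ℝ) = 4 ^ 2 by norm_num, Real.log_pow]
      norm_num
    have h3 : Real.log 16 ≤ Real.log R := Real.log_le_log (by norm_num) hR
    linarith

end Pool.Agent.Results.MP_b7167f_an.EndpointTensors
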