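import Mathlib
import Pool.Agent.X146.RP.W
set_option autoImplicit false

/-!
# The restriction problem for the paraboloid: functions that are radial in `k` of the variables

Let `n = m + k = d - 1` with `k ≥ 2`. We consider all bounded measurable `f` on `[-1,1]^n` that
depend only on `m` of the coordinates, without any regularity, and on the distance of the other `k`
coordinates to a point. We prove that `E` maps these functions to `L^q` for

`q > 2 + 4/(m + 2k - 1)`,

to be compared with the Tomas-Stein range `q > 2 + 4/n` and the conjecture `q > 2 + 2/n`, and, more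
generally, that every extension estimate `L^∞ → L^{p₀}` for all functions in the lower dimensional
space `ℝ^{m+2}` implies the estimate for these functions in `ℝ^{n+1}` for all `2 < q < p₀` with
`p₀ - q < (k-1)(q-2)(p₀-2)/2`. In particular the restriction conjecture in `ℝ^{m+2}` implies it, in
the full range `q > 2 + 2/n`, for these functions in `ℝ^{n+1}`, for all `k`.
-/

namespace Pool.Agent.Results.MP_b7167f_an.PartiallyRadial

open MeasureTheory Set Complex
open scoped ENNReal NNReal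

/-- The extension operator of the truncated paraboloid in `ℝ^(n+1)`:
`Ef(x,t) = ∫_{[-1,1]^n} f(ξ) exp(2πi(ξ·x + |ξ|² t)) dξ`. -/
noncomputable def ext {n : ℕ} (f : (Fin n → ℝ) → ℂ) (y : (Fin n → ℝ) × ℝ) : ℂ :=
  ∫ ξ in Icc (-1 : Fin n → ℝ) 1,
    f ξ * cexp (2 * Real.pi * I * ((∑ j, ξ j * y.1 j + (∑ j, ξ j ^ 2) * y.2 : ℝ) : ℂ))

/-- The coordinates of `ℝ^n` are split by `e` into a group of `m` and a group of `k` coordinates.
The function `f` is measurable, bounded by one, vanishes outside the cube and depends only on the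
coordinates of the first group and on the distance of the second group to `c`. -/
structure Radial {m k n : ℕ} (e : Fin m ⊕ Fin k ≃ Fin n) (c : Fin k → ℝ)
    (f : (Fin n → ℝ) → ℂ) : Prop where
  meas : Measurable f
  bd : ∀ ξ, ‖f ξ‖ ≤ 1
  supp : ∀ ξ, ξ ∉ Icc (-1 : Fin n → ℝ) 1 → f ξ = 0
  radial : ∀ ξ ξ' : Fin n → ℝ, (∀ i, ξ (e (Sum.inl i)) = ξ' (e (Sum.inl i))) →
    ∑ i, (ξ (e (Sum.inr i)) - c i) ^ 2 = ∑ i, (ξ' (e (Sum.inr i)) - c i) ^ 2 → f ξ = f ξ'

/-- The extension estimate `L^∞ → L^p` for all functions on `[-1,1]^M`. -/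
def Estimate (M : ℕ) (p : ℝ) : Prop :=
  ∃ A : ℝ≥0, ∀ g : (Fin M → ℝ) → ℂ, Measurable g → (∀ ξ, ‖g ξ‖ ≤ 1) →
    ∫⁻ y : (Fin M → ℝ) × ℝ, ‖ext g y‖ₑ ^ p ≤ A

lemma ext_eq {n : ℕ} (f : (Fin n → ℝ) → ℂ) : ext f = Pool.Agent.TH277.HT.EE f := by
  funext y
  unfold ext Pool.Agent.TH277.HT.EE
  apply setIntegral_congr_fun measurableSet_Icc
  intro ξ _
  exact mul_comm _ _

lemma transfer {m k n : ℕ} {e : Fin m ⊕ Fin k ≃ Fin n} {c : Fin k → ℝ} {f : (Fin n → ℝ) → ℂ}
    (hf : Radial e c f) : ∃ F : (Fin m → ℝ) → (Fin k → ℝ) → ℂ,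
      Pool.Agent.X146.RP.PR c F ∧ Pool.Agent.X146.RP.glue e F = f := by
  refine ⟨fun v η => f (Pool.Agent.X146.RP.gs e (v, η)), ⟨?_, ?_, ?_, ?_⟩, ?_⟩
  · exact hf.meas.comp (Pool.Agent.X146.RP.gs e).measurable
  · exact fun v η => hf.bd _
  · intro v η h
    apply hf.supp
    intro h1
    rcases h with h | h
    · apply h
      constructor
      · intro i
        have := h1.1 (e (Sum.inl i))
        rw [Pool.Agent.X146.RP.gs_inl] at this
        exact this
      · intro i
        have := h1.2 (e (Sum.inl i))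
        rw [Pool.Agent.X146.RP.gs_inl] at this
        exact this
    · apply h
      constructor
      · intro i
        have := h1.1 (e (Sum.inr i))
        rw [Pool.Agent.X146.RP.gs_inr] at this
        exact this
      · intro i
        have := h1.2 (e (Sum.inr i))
        rw [Pool.Agent.X146.RP.gs_inr] at this
        exact this
  · intro v η η' h
    apply hf.radial
    · intro i
      rw [Pool.Agent.X146.RP.gs_inl, Pool.Agent.X146.RP.gs_inl]
    · simp only [Pool.Agent.X146.RP.gs_inr]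
      exact h
  · funext ξ
    unfold Pool.Agent.X146.RP.glue
    simp only
    congr 1
    funext j
    obtain ⟨s, rfl⟩ := e.surjective j
    rcases s with i | i
    · rw [Pool.Agent.X146.RP.gs_inl]
    · rw [Pool.Agent.X146.RP.gs_inr]

theorem result (m k n : ℕ) (hk : 2 ≤ k) :
    (∀ q : ℝ, 2 + 4 / ((m : ℝ) + 2 * k - 1) < q → ∃ C : ℝ≥0,
      ∀ (e : Fin m ⊕ Fin k ≃ Fin n) (c : Fin k → ℝ) (f : (Fin n → ℝ) → ℂ), Radial e c f →
        ∫⁻ y : (Fin n → ℝ) × ℝ, ‖ext f y‖ₑ ^ q ≤ C) ∧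
    (∀ q p₀ : ℝ, 2 < q → q < p₀ → p₀ - q < ((k : ℝ) - 1) * (q - 2) * (p₀ - 2) / 2 →
      Estimate (m + 1) p₀ → ∃ C : ℝ≥0,
      ∀ (e : Fin m ⊕ Fin k ≃ Fin n) (c : Fin k → ℝ) (f : (Fin n → ℝ) → ℂ), Radial e c f →
        ∫⁻ y : (Fin n → ℝ) × ℝ, ‖ext f y‖ₑ ^ q ≤ C) := by
  constructor
  · intro q hq
    obtain ⟨C, hC⟩ := Pool.Agent.X146.RP.part_uncond m k n hk q hq
    refine ⟨C, ?_⟩
    intro e c f hf
    obtain ⟨F, hF, rfl⟩ := transfer hf
    rw [ext_eq]
    exact hC e c F hF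
  · intro q p₀ hq hqp hc hE
    obtain ⟨A, hA⟩ := hE
    simp only [ext_eq] at hA
    obtain ⟨C, hC⟩ := Pool.Agent.X146.RP.part_rad m k n hk q p₀ hq hqp hc A hA
    refine ⟨C, ?_⟩
    intro e c f hf
    obtain ⟨F, hF, rfl⟩ := transfer hf
    rw [ext_eq]
    exact hC e c F hF

end Pool.Agent.Results.MP_b7167f_an.PartiallyRadial
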