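import Mathlib
import Pool.Agent.X146.RP.Y
set_option autoImplicit false

/-!
# The restriction problem for the paraboloid: a product principle

The coordinates of `ℝ^n`, `n = d - 1`, are grouped in an arbitrary way into `r` blocks of sizes
`k_1, …, k_r`. For functions `F_j` of the variables of the block `j`, with values in a Hilbert
space, and a multilinear form `M` of norm at most one, let `f(ξ) = M(F_1(ξ_{B_1}), …, F_r(ξ_{B_r}))`
(for instance the product of arbitrary functions of the blocks). We prove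

* the inequality `∫|Ef|^q ≤ ∏_j (∫‖F_j‖²)^{1-α_j} (∫‖EF_j‖^{p_j})^{α_j}`, with constant one, whenever
  `α_j = (q-2)/(p_j-2)` and `∑ α_j = 1`;
* consequently, if the extension estimate `L^∞ → L^p` holds in `ℝ^{k_j+1}` for all `p > 2 + 2/s_j`,
  then it holds for the products `∏ F_j(ξ_{B_j})` in `ℝ^{n+1}` for all `q > 2 + 2/∑ s_j`; as
  `s_j = k_j` is the restriction conjecture, the conjecture in `ℝ^{k_j+1}`, for all `j`, implies the
  conjecture, in the full range, for the products in `ℝ^{n+1}`;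
* unconditionally: if one block, of size `m`, carries an arbitrary bounded function and the factors
  of the other blocks are arbitrary (size one) or radial about a point, then `Ef ∈ L^q` for all
  `q > 2 + 4/(2n-m)`, with uniform bounds. The Tomas-Stein range is `q > 2 + 4/n`.
-/

namespace Pool.Agent.Results.MP_b7167f_an.ProductPrinciple

open MeasureTheory Set Complex
open scoped ENNReal NNReal

/-- The extension operator of the truncated paraboloid in `ℝ^(n+1)`, for functions with values in a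
Hilbert space: `Ef(x,t) = ∫_{[-1,1]^n} exp(2πi(ξ·x + |ξ|² t)) f(ξ) dξ`. For `H = ℂ` this is the
operator of the problem. -/
noncomputable def ext {H : Type} [NormedAddCommGroup H] [InnerProductSpace ℂ H] {n : ℕ}
    (f : (Fin n → ℝ) → H) (y : (Fin n → ℝ) × ℝ) : H :=
  ∫ ξ in Icc (-1 : Fin n → ℝ) 1,
    cexp (2 * Real.pi * I * ((∑ j, ξ j * y.1 j + (∑ j, ξ j ^ 2) * y.2 : ℝ) : ℂ)) • f ξ

/-- The extension estimate `L^∞ → L^p` for all complex valued functions on `[-1,1]^m`. -/
def Estimate (m : ℕ) (p : ℝ) : Prop :=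
  ∃ A : ℝ≥0, ∀ g : (Fin m → ℝ) → ℂ, Measurable g → (∀ ξ, ‖g ξ‖ ≤ 1) →
    ∫⁻ y : (Fin m → ℝ) × ℝ, ‖ext g y‖ₑ ^ p ≤ A

/-- Structured factors: measurable, with values in the unit ball, vanishing outside the cube
`[-1,1]^k`, arbitrary if `k = 1` and radial about some point if `k ≥ 2`. -/
structure Structured {H : Type} [NormedAddCommGroup H] {k : ℕ} (F : (Fin k → ℝ) → H) : Prop where
  meas : StronglyMeasurable F
  bd : ∀ η, ‖F η‖ ≤ 1
  supp : ∀ η, η ∉ Icc (-1 : Fin k → ℝ) 1 → F η = 0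
  radial : 2 ≤ k → ∃ c : Fin k → ℝ, ∀ η η' : Fin k → ℝ,
    ∑ i, (η i - c i) ^ 2 = ∑ i, (η' i - c i) ^ 2 → F η = F η'

/-- Rough factors: an arbitrary measurable scalar function, bounded by one and vanishing outside
the cube, times a vector of norm at most one. -/
def Rough {H : Type} [NormedAddCommGroup H] [InnerProductSpace ℂ H] {k : ℕ}
    (F : (Fin k → ℝ) → H) : Prop :=
  ∃ (G : (Fin k → ℝ) → ℂ) (v : H), Measurable G ∧ (∀ η, ‖G η‖ ≤ 1) ∧
    (∀ η, η ∉ Icc (-1 : Fin k → ℝ) 1 → G η = 0) ∧ ‖v‖ ≤ 1 ∧ ∀ η, F η = G η • v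

lemma ext_scalar {n : ℕ} (f : (Fin n → ℝ) → ℂ) : ext f = Pool.Agent.TH277.HT.EE f := rfl

lemma ext_V {H : Type} [NormedAddCommGroup H] [InnerProductSpace ℂ H] [CompleteSpace H] {k : ℕ}
    (F : (Fin k → ℝ) → H) (h0 : ∀ η, η ∉ Icc (-1 : Fin k → ℝ) 1 → F η = 0)
    (y : (Fin k → ℝ) × ℝ) : ext F y = Pool.Agent.X146.RP.V F y.1 y.2 := by
  unfold ext Pool.Agent.X146.RP.V
  rw [← integral_indicator measurableSet_Icc]
  apply integral_congr_ae
  refine ae_of_all _ fun η => ?_
  simp only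
  by_cases h : η ∈ Icc (-1 : Fin k → ℝ) 1
  · rw [indicator_of_mem h]
    rfl
  · rw [indicator_of_notMem h, h0 η h, smul_zero]

lemma norm_le_one {H : Type} [NormedAddCommGroup H] [InnerProductSpace ℂ H] {r : ℕ}
    (M : ContinuousMultilinearMap ℂ (fun _ : Fin r => H) ℂ) (hM : ∀ x, ‖M x‖ ≤ ∏ m, ‖x m‖) :
    ‖M‖ ≤ 1 := by
  apply ContinuousMultilinearMap.opNorm_le_bound zero_le_one
  intro x
  rw [one_mul]
  exact hM x

lemma sum_size {n r : ℕ} {k : Fin r → ℕ} (e : (Σ j, Fin (k j)) ≃ Fin n) : ∑ j, k j = n := by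
  have h := Fintype.card_congr e
  simpa using h

lemma pos_r {n r : ℕ} {k : Fin r → ℕ} (hn : 0 < n) (e : (Σ j, Fin (k j)) ≃ Fin n) : 0 < r := by
  rcases Nat.eq_zero_or_pos r with h | h
  · subst h
    have := sum_size e
    simp at this
    omega
  · exact h

theorem result :
    -- (1) the product inequality
    (∀ (n r : ℕ) (k : Fin r → ℕ) (e : (Σ j, Fin (k j)) ≃ Fin n)
      (H : Type) [NormedAddCommGroup H] [InnerProductSpace ℂ H] [CompleteSpace H]
      (M : ContinuousMultilinearMap ℂ (fun _ : Fin r => H) ℂ) (F : ∀ j, (Fin (k j) → ℝ) → H)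
      (q : ℝ) (p : Fin r → ℝ), (∀ x, ‖M x‖ ≤ ∏ m, ‖x m‖) → (∀ j, StronglyMeasurable (F j)) →
      (∀ j, MemLp (F j) 2 volume) → (∀ j η, η ∉ Icc (-1 : Fin (k j) → ℝ) 1 → F j η = 0) →
      2 ≤ q → (∀ j, 2 < p j) → ∑ j, (q - 2) / (p j - 2) = 1 →
      ∫⁻ y : (Fin n → ℝ) × ℝ, ‖ext (fun ξ => M fun j => F j fun i => ξ (e ⟨j, i⟩)) y‖ₑ ^ q ≤
        ∏ j, ((∫⁻ η, ‖F j η‖ₑ ^ 2) ^ (1 - (q - 2) / (p j - 2)) *
          (∫⁻ y : (Fin (k j) → ℝ) × ℝ, ‖ext (F j) y‖ₑ ^ p j) ^ ((q - 2) / (p j - 2)))) ∧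
    -- (2) extension estimates in the lower dimensions imply them for products
    (∀ (n r : ℕ) (k : Fin r → ℕ) (s : Fin r → ℝ), 0 < n → (∀ j, 0 < s j) →
      (∀ j, ∀ p : ℝ, 2 + 2 / s j < p → Estimate (k j) p) →
      ∀ q : ℝ, 2 + 2 / ∑ j, s j < q → ∃ C : ℝ≥0, ∀ (e : (Σ j, Fin (k j)) ≃ Fin n)
        (F : ∀ j, (Fin (k j) → ℝ) → ℂ), (∀ j, Measurable (F j)) → (∀ j η, ‖F j η‖ ≤ 1) →
        ∫⁻ y : (Fin n → ℝ) × ℝ, ‖ext (fun ξ => ∏ j, F j fun i => ξ (e ⟨j, i⟩)) y‖ₑ ^ q ≤ C) ∧
    -- (3) unconditional: one rough block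
    (∀ (n r : ℕ) (k : Fin r → ℕ) (j₀ : Fin r), (∀ j, 0 < k j) →
      ∀ q : ℝ, 2 + 4 / (2 * (n : ℝ) - k j₀) < q → ∃ C : ℝ≥0, ∀ (e : (Σ j, Fin (k j)) ≃ Fin n)
        (H : Type) [NormedAddCommGroup H] [InnerProductSpace ℂ H] [CompleteSpace H]
        (M : ContinuousMultilinearMap ℂ (fun _ : Fin r => H) ℂ) (F : ∀ j, (Fin (k j) → ℝ) → H),
        (∀ x, ‖M x‖ ≤ ∏ m, ‖x m‖) → Rough (F j₀) → (∀ j, j ≠ j₀ → Structured (F j)) →
        ∫⁻ y : (Fin n → ℝ) × ℝ,
          ‖ext (fun ξ => M fun j => F j fun i => ξ (e ⟨j, i⟩)) y‖ₑ ^ q ≤ C) := by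
  refine ⟨?_, ?_, ?_⟩
  · intro n r k e H _ _ _ M F q p hM hF h2 h0 hq hp hsum
    have h := Pool.Agent.X146.RP.product e M F (norm_le_one M hM)
      (fun j => ⟨hF j, h2 j, h0 j⟩) q p hq hp hsum
    simp only [ext_V _ (h0 _)]
    exact h
  · intro n r k s hn hs hE q hq
    have hex : ∀ j, ∃ A : ℝ≥0, 0 < r → ∀ g : (Fin (k j) → ℝ) → ℂ, Measurable g →
        (∀ ξ, ‖g ξ‖ ≤ 1) → ∫⁻ y : (Fin (k j) → ℝ) × ℝ,
          ‖ext g y‖ₑ ^ (2 + (q - 2) * (∑ i, s i) / s j) ≤ A := by
      intro j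
      by_cases hr : 0 < r
      · have : Nonempty (Fin r) := ⟨⟨0, hr⟩⟩
        have hS : 0 < ∑ i, s i := Finset.sum_pos (fun i _ => hs i) Finset.univ_nonempty
        have h1 : 2 / s j < (q - 2) * (∑ i, s i) / s j := by
          apply div_lt_div_of_pos_right _ (hs j)
          rw [← div_lt_iff₀ hS]
          linarith
        obtain ⟨A, hA⟩ := hE j (2 + (q - 2) * (∑ i, s i) / s j) (by linarith)
        exact ⟨A, fun _ => hA⟩
      · exact ⟨0, fun h => absurd h hr⟩
    choose A hA using hex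
    have hfin : ∏ j, ((2 ^ k j : ℝ≥0∞) ^ (1 - s j / ∑ i, s i) *
      (A j : ℝ≥0∞) ^ (s j / ∑ i, s i)) ≠ ∞ := by
      apply ENNReal.prod_ne_top
      intro j _
      have hS : 0 < ∑ i, s i := lt_of_lt_of_le (hs j)
        (Finset.single_le_sum (f := s) (fun i _ => (hs i).le) (Finset.mem_univ j))
      apply ENNReal.mul_ne_top
      · apply ENNReal.rpow_ne_top_of_nonneg
        · rw [sub_nonneg, div_le_one hS]
          exact Finset.single_le_sum (f := s) (fun i _ => (hs i).le) (Finset.mem_univ j)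
        · exact ENNReal.pow_ne_top (by norm_num)
      · exact ENNReal.rpow_ne_top_of_nonneg (div_pos (hs j) hS).le ENNReal.coe_ne_top
    refine ⟨(∏ j, ((2 ^ k j : ℝ≥0∞) ^ (1 - s j / ∑ i, s i) *
      (A j : ℝ≥0∞) ^ (s j / ∑ i, s i))).toNNReal, ?_⟩
    rw [ENNReal.coe_toNNReal hfin]
    intro e F hFm hFb
    have hr : 0 < r := pos_r hn e
    have : Nonempty (Fin r) := ⟨⟨0, hr⟩⟩
    have hS : 0 < ∑ i, s i := Finset.sum_pos (fun i _ => hs i) Finset.univ_nonempty
    have hq2 : 2 < q := by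
      have : 0 < 2 / ∑ i, s i := by positivity
      linarith
    set F' : ∀ j, (Fin (k j) → ℝ) → ℂ := fun j => (Icc (-1 : Fin (k j) → ℝ) 1).indicator (F j)
      with hF'
    have h1 := Pool.Agent.X146.RP.strengths e (ContinuousMultilinearMap.mkPiAlgebra ℂ (Fin r) ℂ)
      F' (ContinuousMultilinearMap.norm_mkPiAlgebra_le.trans le_rfl)
      (fun j => ((hFm j).indicator measurableSet_Icc).stronglyMeasurable)
      (by
        intro j η
        simp only [hF']
        by_cases h : η ∈ Icc (-1 : Fin (k j) → ℝ) 1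
        · rw [indicator_of_mem h]
          exact hFb j η
        · rw [indicator_of_notMem h, norm_zero]
          exact zero_le_one)
      (fun j η h => indicator_of_notMem h _) s hr hs q hq2 A
      (by
        intro j
        simp only [hF', Pool.Agent.X146.RP.V_EE]
        exact hA j hr (F j) (hFm j) (hFb j))
    refine le_trans (le_of_eq ?_) h1
    apply lintegral_congr
    intro y
    congr 2
    rw [ext_scalar]
    unfold Pool.Agent.TH277.HT.EE
    apply setIntegral_congr_fun measurableSet_Icc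
    intro ξ hξ
    simp only
    congr 1
    unfold Pool.Agent.X146.RP.ten
    rw [ContinuousMultilinearMap.mkPiAlgebra_apply]
    apply Finset.prod_congr rfl
    intro j _
    simp only [hF']
    rw [indicator_of_mem]
    exact ⟨fun i => hξ.1 _, fun i => hξ.2 _⟩
  · intro n r k j₀ hk q hq
    by_cases hne : ∑ j, k j = n
    swap
    · exact ⟨0, fun e => absurd (sum_size e) hne⟩
    have hr : 0 < r := lt_of_le_of_lt (Nat.zero_le _) j₀.2
    set s : Fin r → ℝ := fun j => if j = j₀ then (k j : ℝ) / 2 else k j with hs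
    have hk0 : ∀ j, (0 : ℝ) < k j := fun j => by exact_mod_cast hk j
    have hs0 : ∀ j, 0 < s j := by
      intro j
      simp only [hs]
      split_ifs
      · exact half_pos (hk0 j)
      · exact hk0 j
    have hS : ∑ j, s j = (2 * (n : ℝ) - k j₀) / 2 := by
      have h1 : ∀ j, s j = k j - if j = j₀ then (k j : ℝ) / 2 else 0 := by
        intro j
        simp only [hs]
        split_ifs <;> ring
      simp only [h1]
      rw [Finset.sum_sub_distrib, Finset.sum_ite_eq' Finset.univ j₀, if_pos (Finset.mem_univ _)]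
      have h2 : ∑ j, (k j : ℝ) = n := by exact_mod_cast hne
      rw [h2]
      ring
    have hSp : 0 < ∑ j, s j := by
      have : Nonempty (Fin r) := ⟨⟨0, hr⟩⟩
      exact Finset.sum_pos (fun i _ => hs0 i) Finset.univ_nonempty
    have hq1 : 2 < (q - 2) * ∑ j, s j := by
      rw [← div_lt_iff₀ hSp]
      have : 2 / ∑ j, s j = 4 / (2 * (n : ℝ) - k j₀) := by
        rw [hS]
        have h3 : (2 * (n : ℝ) - k j₀) ≠ 0 := by
          rw [hS] at hSp
          intro h
          rw [h] at hSp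
          simp at hSp
        field_simp
        norm_num
      rw [this]
      linarith
    have hq2 : 2 < q := by
      by_contra hc
      push Not at hc
      have : (q - 2) * ∑ j, s j ≤ 0 := mul_nonpos_of_nonpos_of_nonneg (by linarith) hSp.le
      linarith
    obtain ⟨A₀, hA₀⟩ := Pool.Agent.X146.RP.ts_bdd (k j₀) (hk j₀)
      (2 + (q - 2) * (∑ i, s i) / s j₀)
      (by
        have h1 : s j₀ = (k j₀ : ℝ) / 2 := by simp [hs]
        have h2 : 2 * ((k j₀ : ℝ) + 2) / k j₀ = 2 + 2 / s j₀ := by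
          rw [h1]
          have := hk0 j₀
          field_simp
        rw [h2]
        have h3 : 2 / s j₀ < (q - 2) * (∑ i, s i) / s j₀ :=
          div_lt_div_of_pos_right hq1 (hs0 j₀)
        linarith)
    have hex : ∀ j, j ≠ j₀ → ∃ K : ℝ≥0, ∀ (H : Type) [NormedAddCommGroup H]
        [InnerProductSpace ℂ H] [CompleteSpace H] (F : (Fin (k j) → ℝ) → H),
        Pool.Agent.X146.RP.Blk F → ∫⁻ y : (Fin (k j) → ℝ) × ℝ,
          ‖Pool.Agent.X146.RP.V F y.1 y.2‖ₑ ^ (2 + (q - 2) * (∑ i, s i) / s j) ≤ K := by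
      intro j hj
      apply Pool.Agent.X146.RP.diag (k j) (hk j)
      have h1 : s j = k j := by simp [hs, hj]
      have h3 : 2 / s j < (q - 2) * (∑ i, s i) / s j := div_lt_div_of_pos_right hq1 (hs0 j)
      rw [← h1]
      linarith
    have hex' : ∀ j, ∃ K : ℝ≥0, j ≠ j₀ → ∀ (H : Type) [NormedAddCommGroup H]
        [InnerProductSpace ℂ H] [CompleteSpace H] (F : (Fin (k j) → ℝ) → H),
        Pool.Agent.X146.RP.Blk F → ∫⁻ y : (Fin (k j) → ℝ) × ℝ,
          ‖Pool.Agent.X146.RP.V F y.1 y.2‖ₑ ^ (2 + (q - 2) * (∑ i, s i) / s j) ≤ K := by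
      intro j
      by_cases hj : j = j₀
      · exact ⟨0, fun h => absurd hj h⟩
      · obtain ⟨K, hK⟩ := hex j hj
        exact ⟨K, fun _ => hK⟩
    choose K hK using hex'
    set A : Fin r → ℝ≥0 := fun j => if j = j₀ then A₀ else K j with hAd
    have hfin : ∏ j, ((2 ^ k j : ℝ≥0∞) ^ (1 - s j / ∑ i, s i) *
      (A j : ℝ≥0∞) ^ (s j / ∑ i, s i)) ≠ ∞ := by
      apply ENNReal.prod_ne_top
      intro j _
      apply ENNReal.mul_ne_top
      · apply ENNReal.rpow_ne_top_of_nonneg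
        · rw [sub_nonneg, div_le_one hSp]
          exact Finset.single_le_sum (f := s) (fun i _ => (hs0 i).le) (Finset.mem_univ j)
        · exact ENNReal.pow_ne_top (by norm_num)
      · exact ENNReal.rpow_ne_top_of_nonneg (div_pos (hs0 j) hSp).le ENNReal.coe_ne_top
    refine ⟨(∏ j, ((2 ^ k j : ℝ≥0∞) ^ (1 - s j / ∑ i, s i) *
      (A j : ℝ≥0∞) ^ (s j / ∑ i, s i))).toNNReal, ?_⟩
    rw [ENNReal.coe_toNNReal hfin]
    intro e H _ _ _ M F hM hR hSt
    obtain ⟨G, v, hGm, hGb, hG0, hv, hGF⟩ := hR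
    have hF0 : F j₀ = fun η => G η • v := funext hGF
    have hmeas : ∀ j, StronglyMeasurable (F j) := by
      intro j
      by_cases hj : j = j₀
      · subst hj
        rw [hF0]
        exact hGm.stronglyMeasurable.smul_const v
      · exact (hSt j hj).meas
    have hbd : ∀ j η, ‖F j η‖ ≤ 1 := by
      intro j η
      by_cases hj : j = j₀
      · subst hj
        rw [hGF, norm_smul]
        exact mul_le_one₀ (hGb η) (norm_nonneg _) hv
      · exact (hSt j hj).bd η
    have hz : ∀ j η, η ∉ Icc (-1 : Fin (k j) → ℝ) 1 → F j η = 0 := by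
      intro j η h
      by_cases hj : j = j₀
      · subst hj
        rw [hGF, hG0 η h, zero_smul]
      · exact (hSt j hj).supp η h
    have h1 := Pool.Agent.X146.RP.strengths e M F (norm_le_one M hM) hmeas hbd hz s hr hs0 q hq2 A
      (by
        intro j
        by_cases hj : j = j₀
        · subst hj
          have hA1 : A j = A₀ := by simp [hAd]
          rw [hA1]
          have h3 : (Icc (-1 : Fin (k j) → ℝ) 1).indicator G = G := by
            funext η
            by_cases h : η ∈ Icc (-1 : Fin (k j) → ℝ) 1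
            · rw [indicator_of_mem h]
            · rw [indicator_of_notMem h, hG0 η h]
          have h2 : ∀ y : (Fin (k j) → ℝ) × ℝ, ‖Pool.Agent.X146.RP.V (F j) y.1 y.2‖ₑ ≤
              ‖Pool.Agent.TH277.HT.EE G y‖ₑ := by
            intro y
            have h4 := Pool.Agent.X146.RP.V_smul G v y
            rw [h3] at h4
            rw [hF0, h4, enorm_smul]
            calc ‖Pool.Agent.TH277.HT.EE G y‖ₑ * ‖v‖ₑ ≤ ‖Pool.Agent.TH277.HT.EE G y‖ₑ * 1 := by
                  gcongr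
                  rw [← ofReal_norm]
                  exact ENNReal.ofReal_le_one.2 hv
              _ = _ := mul_one _
          refine le_trans (lintegral_mono fun y => ?_) (hA₀ G hGm hGb)
          have h5 : 0 < (q - 2) * (∑ i, s i) / s j := div_pos (by linarith) (hs0 j)
          exact ENNReal.rpow_le_rpow (h2 y) (by linarith)
        · have hA1 : A j = K j := by simp [hAd, hj]
          rw [hA1]
          exact hK j hj H (F j) ⟨(hSt j hj).meas, (hSt j hj).bd, (hSt j hj).supp, (hSt j hj).radial⟩)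
    exact h1

end Pool.Agent.Results.MP_b7167f_an.ProductPrinciple
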